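import Pool.Agent.L7h85.SE.Nil

/-!
# Elements with bounded conjugation orbits in an algebra with a trace

`A` is a `ℚ`-algebra with a trace `t`, `N = {a | t (a b) = 0 for all b}` has finite codimension, elements
which are nilpotent modulo `N` have trace zero. If `φ ψ = ψ φ = c` and all `t (c⁻ᵏ φᵏ a ψᵏ b)` are bounded,
then `φ` is semisimple modulo `N`.
-/

set_option autoImplicit false

open Polynomial

namespace Pool.Agent.L7h85.SE

variable {A : Type*} [Ring A] [Algebra ℚ A]

/-- the radical of the trace form -/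
def rad (t : A →ₗ[ℚ] ℚ) : Submodule ℚ A where
  carrier := {a | ∀ b, t (a * b) = 0}
  zero_mem' := fun b => by simp
  add_mem' := fun ha hb c => by rw [add_mul, map_add, ha, hb, add_zero]
  smul_mem' := fun r a ha b => by rw [smul_mul_assoc, map_smul, ha, smul_zero]

lemma mem_rad (t : A →ₗ[ℚ] ℚ) (a : A) : a ∈ rad t ↔ ∀ b, t (a * b) = 0 := Iff.rfl

lemma rad_right (t : A →ₗ[ℚ] ℚ) {a : A} (ha : a ∈ rad t) (b : A) : a * b ∈ rad t := fun c => by
  rw [mul_assoc]
  exact ha _

lemma rad_left (t : A →ₗ[ℚ] ℚ) (ht : ∀ a b, t (a * b) = t (b * a)) {a : A} (ha : a ∈ rad t) (b : A) :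
    b * a ∈ rad t := fun c => by
  rw [mul_assoc, ht, mul_assoc]
  exact ha _

/-- left multiplication modulo the radical -/
noncomputable def L (t : A →ₗ[ℚ] ℚ) (ht : ∀ a b, t (a * b) = t (b * a)) (a : A) :
    Module.End ℚ (A ⧸ rad t) :=
  (rad t).mapQ (rad t) (LinearMap.mulLeft ℚ a) fun _ hb => rad_left t ht hb a

/-- right multiplication modulo the radical -/
noncomputable def R (t : A →ₗ[ℚ] ℚ) (a : A) : Module.End ℚ (A ⧸ rad t) :=
  (rad t).mapQ (rad t) (LinearMap.mulRight ℚ a) fun _ hb => rad_right t hb a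

variable (t : A →ₗ[ℚ] ℚ) (ht : ∀ a b, t (a * b) = t (b * a))

@[simp] lemma L_mk (a b : A) : L t ht a (Submodule.Quotient.mk b) = Submodule.Quotient.mk (a * b) := rfl

@[simp] lemma R_mk (a b : A) : R t a (Submodule.Quotient.mk b) = Submodule.Quotient.mk (b * a) := rfl

lemma ext_q {f g : Module.End ℚ (A ⧸ rad t)}
    (h : ∀ a : A, f (Submodule.Quotient.mk a) = g (Submodule.Quotient.mk a)) : f = g := by
  refine LinearMap.ext fun x => ?_
  obtain ⟨a, rfl⟩ := Submodule.Quotient.mk_surjective _ x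
  exact h a

lemma L_mul (a b : A) : L t ht (a * b) = L t ht a * L t ht b := ext_q t fun c => by
  simp [mul_assoc]

lemma R_mul (a b : A) : R t (a * b) = R t b * R t a := ext_q t fun c => by
  simp [mul_assoc]

lemma LR (a b : A) : Commute (L t ht a) (R t b) := ext_q t fun c => by
  simp [mul_assoc]

lemma L_one : L t ht 1 = 1 := ext_q t fun c => by simp
lemma R_one : R t (1 : A) = 1 := ext_q t fun c => by simp

lemma L_add (a b : A) : L t ht (a + b) = L t ht a + L t ht b := ext_q t fun c => by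
  simp [add_mul]

lemma R_add (a b : A) : R t (a + b) = R t a + R t b := ext_q t fun c => by
  simp [mul_add]

lemma L_smul (r : ℚ) (a : A) : L t ht (r • a) = r • L t ht a := ext_q t fun c => by
  simp

lemma R_smul (r : ℚ) (a : A) : R t (r • a) = r • R t a := ext_q t fun c => by
  simp

lemma L_pow (a : A) (n : ℕ) : L t ht (a ^ n) = L t ht a ^ n := by
  induction n with
  | zero => rw [pow_zero, pow_zero, L_one]
  | succ n ih => rw [pow_succ, pow_succ, L_mul, ih]

lemma R_pow (a : A) (n : ℕ) : R t (a ^ n) = R t a ^ n := by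
  induction n with
  | zero => rw [pow_zero, pow_zero, R_one]
  | succ n ih => rw [pow_succ, pow_succ', R_mul, ih]

lemma L_aeval (a : A) (p : ℚ[X]) : L t ht (aeval a p) = aeval (L t ht a) p := by
  induction p using Polynomial.induction_on' with
  | add p q hp hq => rw [map_add, map_add, L_add, hp, hq]
  | monomial n r =>
    rw [aeval_monomial, aeval_monomial, ← Algebra.smul_def, ← Algebra.smul_def, L_smul, L_pow]

lemma R_aeval (a : A) (p : ℚ[X]) : R t (aeval a p) = aeval (R t a) p := by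
  induction p using Polynomial.induction_on' with
  | add p q hp hq => rw [map_add, map_add, R_add, hp, hq]
  | monomial n r =>
    rw [aeval_monomial, aeval_monomial, ← Algebra.smul_def, ← Algebra.smul_def, R_smul, R_pow]

lemma L_zero_iff (a : A) : L t ht a = 0 ↔ a ∈ rad t := by
  constructor
  · intro h
    have := congrArg (fun f => f (Submodule.Quotient.mk (1 : A))) h
    simp only [L_mk, mul_one, LinearMap.zero_apply] at this
    exact (Submodule.Quotient.mk_eq_zero _).1 this
  · intro h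
    refine ext_q t fun c => ?_
    rw [L_mk, LinearMap.zero_apply]
    exact (Submodule.Quotient.mk_eq_zero _).2 (rad_right t h c)

lemma R_zero_of (a : A) (h : a ∈ rad t) (ht : ∀ a b, t (a * b) = t (b * a)) : R t a = 0 := by
  refine ext_q t fun c => ?_
  rw [R_mk, LinearMap.zero_apply]
  exact (Submodule.Quotient.mk_eq_zero _).2 (rad_left t ht h c)

/-- the coordinates `t (a b)`, `b ∈ s`, of a class -/
noncomputable def J (s : Finset A) : (A ⧸ rad t) →ₗ[ℚ] (s → ℚ) :=
  (rad t).liftQ (LinearMap.pi fun b : s => t.comp (LinearMap.mulRight ℚ (b : A)))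
    (fun a ha => by
      rw [LinearMap.mem_ker]
      ext b
      exact ha b)

lemma J_mk (s : Finset A) (a : A) (b : s) : J t s (Submodule.Quotient.mk a) b = t (a * b) := rfl

lemma J_inj (s : Finset A) (hs : ∀ a, (∀ b ∈ s, t (a * b) = 0) → a ∈ rad t) :
    LinearMap.ker (J t s) = ⊥ := by
  rw [LinearMap.ker_eq_bot']
  intro x hx
  obtain ⟨a, rfl⟩ := Submodule.Quotient.mk_surjective _ x
  rw [Submodule.Quotient.mk_eq_zero]
  apply hs
  intro b hb
  have := congrFun hx ⟨b, hb⟩
  rwa [J_mk] at this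

/-- the main lemma -/
theorem core (s : Finset A) (hs : ∀ a, (∀ b ∈ s, t (a * b) = 0) → a ∈ rad t)
    (ht : ∀ a b, t (a * b) = t (b * a))
    (hnil : ∀ a, (∃ k : ℕ, a ^ k ∈ rad t) → t a = 0)
    (φ ψ : A) (c : ℚ) (hc : c ≠ 0) (h1 : φ * ψ = algebraMap ℚ A c) (h2 : ψ * φ = algebraMap ℚ A c)
    (hb : ∀ a b, ∃ C : ℚ, ∀ k : ℕ, |t (((c⁻¹) ^ k • (φ ^ k * a * ψ ^ k)) * b)| ≤ C) :
    ∃ P : ℚ[X], Squarefree P ∧ aeval φ P ∈ rad t := by
  classical
  have hker := J_inj t s hs
  have hfd : FiniteDimensional ℚ (A ⧸ rad t) :=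
    FiniteDimensional.of_injective (J t s) (LinearMap.ker_eq_bot.1 hker)
  obtain ⟨G, hG⟩ := (J t s).exists_leftInverse_of_injective hker
  have hGJ : ∀ x, G (J t s x) = x := fun x => by
    rw [← LinearMap.comp_apply, hG, LinearMap.id_apply]
  -- the conjugation and its inverse
  let T : Module.End ℚ (A ⧸ rad t) := c⁻¹ • (L t ht φ * R t ψ)
  let T' : Module.End ℚ (A ⧸ rad t) := c⁻¹ • (L t ht ψ * R t φ)
  have Lc : L t ht (algebraMap ℚ A c) = c • 1 := by
    rw [Algebra.algebraMap_eq_smul_one, L_smul, L_one]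
  have Rc : R t (algebraMap ℚ A c) = c • 1 := by
    rw [Algebra.algebraMap_eq_smul_one, R_smul, R_one]
  have hT : ∀ a, T (Submodule.Quotient.mk a) = Submodule.Quotient.mk (c⁻¹ • (φ * a * ψ)) := fun a => by
    change c⁻¹ • (L t ht φ (R t ψ (Submodule.Quotient.mk a))) = _
    rw [R_mk, L_mk, Submodule.Quotient.mk_smul, mul_assoc]
  have hT' : ∀ a, T' (Submodule.Quotient.mk a) = Submodule.Quotient.mk (c⁻¹ • (ψ * a * φ)) := fun a => by
    change c⁻¹ • (L t ht ψ (R t φ (Submodule.Quotient.mk a))) = _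
    rw [R_mk, L_mk, Submodule.Quotient.mk_smul, mul_assoc]
  have hTT : T' * T = 1 := by
    refine ext_q t fun a => ?_
    rw [Module.End.mul_apply, hT, hT', Module.End.one_apply]
    congr 1
    rw [mul_smul_comm, smul_mul_assoc, smul_smul]
    have : ψ * (φ * a * ψ) * φ = (ψ * φ) * a * (ψ * φ) := by noncomm_ring
    rw [this, h2, ← Algebra.smul_def, ← Algebra.commutes, ← Algebra.smul_def, smul_smul, smul_smul]
    have : c⁻¹ * c⁻¹ * c * c = 1 := by field_simp
    rw [this, one_smul]
  have hTk : ∀ (k : ℕ) (a : A), (T ^ k) (Submodule.Quotient.mk a) =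
      Submodule.Quotient.mk ((c⁻¹) ^ k • (φ ^ k * a * ψ ^ k)) := by
    intro k
    induction k with
    | zero => intro a; simp
    | succ k ih =>
      intro a
      rw [pow_succ', Module.End.mul_apply, ih, hT]
      congr 1
      rw [mul_smul_comm, smul_mul_assoc, smul_smul, ← pow_succ']
      congr 1
      rw [pow_succ' φ, pow_succ ψ]
      noncomm_ring
  have hTk' : ∀ (k : ℕ) (a : A), (T' ^ k) (Submodule.Quotient.mk a) =
      Submodule.Quotient.mk ((c⁻¹) ^ k • (ψ ^ k * a * φ ^ k)) := by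
    intro k
    induction k with
    | zero => intro a; simp
    | succ k ih =>
      intro a
      rw [pow_succ', Module.End.mul_apply, ih, hT']
      congr 1
      rw [mul_smul_comm, smul_mul_assoc, smul_smul, ← pow_succ']
      congr 1
      rw [pow_succ' ψ, pow_succ φ]
      noncomm_ring
  have hb' : ∀ a b, ∃ C : ℚ, ∀ k : ℕ, |t (((c⁻¹) ^ k • (ψ ^ k * a * φ ^ k)) * b)| ≤ C := by
    intro a b
    obtain ⟨C, hC⟩ := hb b a
    refine ⟨C, fun k => ?_⟩
    have e : t (((c⁻¹) ^ k • (ψ ^ k * a * φ ^ k)) * b) = t (((c⁻¹) ^ k • (φ ^ k * b * ψ ^ k)) * a) := by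
      rw [smul_mul_assoc, smul_mul_assoc, map_smul, map_smul]
      congr 1
      have e1 : ψ ^ k * a * φ ^ k * b = (ψ ^ k * a) * (φ ^ k * b) := by noncomm_ring
      have e2 : φ ^ k * b * ψ ^ k * a = (φ ^ k * b) * (ψ ^ k * a) := by noncomm_ring
      rw [e1, e2, ht]
    rw [e]
    exact hC k
  have hdual : ∀ (S : Module.End ℚ (A ⧸ rad t)),
      (∀ a b, ∃ C : ℚ, ∀ k : ℕ, ∃ a', (S ^ k) (Submodule.Quotient.mk a) = Submodule.Quotient.mk a' ∧
        |t (a' * b)| ≤ C) →
      ∀ (x : A ⧸ rad t) (l : Module.Dual ℚ (A ⧸ rad t)), ∃ C : ℚ, ∀ k : ℕ, |l ((S ^ k) x)| ≤ C := by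
    intro S hS x l
    obtain ⟨a, rfl⟩ := Submodule.Quotient.mk_surjective _ x
    choose C hC using hS a
    refine ⟨∑ b : s, |l (G (Pi.single b 1))| * C (b : A), fun k => ?_⟩
    have e : l ((S ^ k) (Submodule.Quotient.mk a)) =
        ∑ b : s, l (G (Pi.single b 1)) * J t s ((S ^ k) (Submodule.Quotient.mk a)) b := by
      conv_lhs => rw [← hGJ ((S ^ k) (Submodule.Quotient.mk a))]
      have := LinearMap.pi_apply_eq_sum_univ (l.comp G) (J t s ((S ^ k) (Submodule.Quotient.mk a)))
      rw [LinearMap.comp_apply] at this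
      rw [this]
      refine Finset.sum_congr rfl fun b _ => ?_
      rw [smul_eq_mul, mul_comm, LinearMap.comp_apply]
      congr 3
      ext j
      simp [Pi.single_apply, eq_comm]
    rw [e]
    refine (Finset.abs_sum_le_sum_abs _ _).trans (Finset.sum_le_sum fun b _ => ?_)
    rw [abs_mul]
    refine mul_le_mul_of_nonneg_left ?_ (abs_nonneg _)
    obtain ⟨a', ha', hle⟩ := hC b k
    rw [ha', J_mk]
    exact hle
  have hTb := hdual T fun a b => by
    obtain ⟨C, hC⟩ := hb a b
    exact ⟨C, fun k => ⟨_, hTk k a, hC k⟩⟩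
  have hTb' := hdual T' fun a b => by
    obtain ⟨C, hC⟩ := hb' a b
    exact ⟨C, fun k => ⟨_, hTk' k a, hC k⟩⟩
  -- the conjugation is semisimple
  have hTss : T.IsSemisimple := by
    obtain ⟨n, hn, s', hs', hnn, hss, heq⟩ := T.exists_isNilpotent_isSemisimple
    rw [Algebra.adjoin_singleton_eq_range_aeval] at hn
    obtain ⟨p, rfl⟩ := hn
    have h0 : aeval T p = 0 := nilQ T T' hTT hTb hTb' p hnn
    have h0' : (aeval T p : Module.End ℚ (A ⧸ rad t)) + s' = s' := by rw [h0, zero_add]
    have e : T = s' := by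
      rw [← h0']
      exact heq
    rw [e]
    exact hss
  obtain ⟨n, hn, s1, hs1, hnn, hss, heq⟩ := (L t ht φ).exists_isNilpotent_isSemisimple
  obtain ⟨n', hn', s1', hs1', hnn', hss', heq'⟩ := (R t φ).exists_isNilpotent_isSemisimple
  have cTR : Commute T (R t φ) := by
    have e1 : Commute (L t ht φ) (R t φ) := LR t ht φ φ
    have e2 : Commute (R t ψ) (R t φ) := by
      change R t ψ * R t φ = R t φ * R t ψ
      rw [← R_mul, ← R_mul, h1, h2]
    exact (e1.mul_left e2).smul_left c⁻¹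
  have cTn' : Commute T n' := Algebra.commute_of_mem_adjoin_singleton_of_commute hn' cTR
  have cTs' : Commute T s1' := Algebra.commute_of_mem_adjoin_singleton_of_commute hs1' cTR
  have cn's' : Commute n' s1' :=
    Algebra.commute_of_mem_adjoin_singleton_of_commute hs1' (Algebra.commute_of_mem_adjoin_self hn').symm
  have cns : Commute n s1 :=
    Algebra.commute_of_mem_adjoin_singleton_of_commute hs1 (Algebra.commute_of_mem_adjoin_self hn).symm
  have hLT : L t ht φ = T * R t φ := by
    change L t ht φ = (c⁻¹ • (L t ht φ * R t ψ)) * R t φ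
    rw [smul_mul_assoc, mul_assoc, ← R_mul, h1, Rc, mul_smul_comm, mul_one, smul_smul,
      inv_mul_cancel₀ hc, one_smul]
  obtain ⟨hnT, -⟩ := Module.End.isNilpotent_isSemisimple_unique (n₁ := n) (s₁ := s1) (n₂ := T * n')
    (s₂ := T * s1') hnn hss (cTn'.isNilpotent_mul_left hnn')
    (hTss.mul_of_commute cTs' hss') cns
    (((Commute.refl T).mul_right cTs').mul_left (cTn'.symm.mul_right cn's'))
    (by rw [← heq, hLT, ← mul_add, ← heq'])
  rw [Algebra.adjoin_singleton_eq_range_aeval] at hn hn'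
  obtain ⟨p, hp⟩ := hn
  obtain ⟨p', hp'⟩ := hn'
  change aeval (L t ht φ) p = n at hp
  change aeval (R t φ) p' = n' at hp'
  rw [← L_aeval] at hp
  rw [← R_aeval] at hp'
  set ν : A := aeval φ p with hν
  set ν' : A := aeval φ p' with hν'
  have cφψ : Commute φ ψ := by
    change φ * ψ = ψ * φ
    rw [h1, h2]
  have cν : ∀ q : ℚ[X], Commute φ (aeval φ q) := fun q => by
    have := Polynomial.aeval_X (R := ℚ) φ
    conv_lhs => skip
    have e : Commute (aeval φ (X : ℚ[X])) (aeval φ q) := by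
      change aeval φ X * aeval φ q = aeval φ q * aeval φ X
      rw [← map_mul, ← map_mul, mul_comm]
    rwa [this] at e
  have cψ : ∀ q : ℚ[X], Commute ψ (aeval φ q) := fun q => by
    induction q using Polynomial.induction_on' with
    | add p q hp hq =>
      rw [map_add]
      exact hp.add_right hq
    | monomial n r =>
      rw [aeval_monomial]
      exact (show Commute ψ (algebraMap ℚ A r) from (Algebra.commutes r ψ).symm).mul_right
        (cφψ.symm.pow_right n)
  -- `ν' = ν` modulo the radical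
  have hLT' : L t ht ν = T * R t ν' := by rw [hp, hp', hnT]
  have e0 : (Submodule.Quotient.mk ν : A ⧸ rad t) = Submodule.Quotient.mk ν' := by
    have e := congrArg (fun f => f (Submodule.Quotient.mk (1 : A))) hLT'
    simp only [L_mk, mul_one, Module.End.mul_apply, R_mk, one_mul] at e
    rw [e, hT, (cν p').eq, mul_assoc, h1, ← Algebra.commutes, ← Algebra.smul_def, smul_smul,
      inv_mul_cancel₀ hc, one_smul]
  have e1 : R t ν = R t ν' := by
    have h0 : ν - ν' ∈ rad t := (Submodule.Quotient.eq _).1 e0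
    have := R_zero_of t _ h0 ht
    have e2 : ν = ν' + (ν - ν') := by abel
    rw [e2, R_add, this, add_zero]
  rw [← e1] at hLT'
  have e3 : ∀ a : A, (Submodule.Quotient.mk (ν * a) : A ⧸ rad t) =
      Submodule.Quotient.mk (c⁻¹ • (φ * (a * ν) * ψ)) := fun a => by
    rw [← L_mk t ht, hLT', Module.End.mul_apply, R_mk, hT]
  -- the central nilpotent element
  let η : A := c⁻¹ • (ψ * ν)
  have e4 : ∀ a : A, (Submodule.Quotient.mk (η * a) : A ⧸ rad t) = Submodule.Quotient.mk (a * η) := by
    intro a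
    have s1 : η * a = (c⁻¹ • ψ) * (ν * a) := by
      change (c⁻¹ • (ψ * ν)) * a = _
      rw [smul_mul_assoc, smul_mul_assoc, mul_assoc]
    rw [s1, ← L_mk t ht, e3, L_mk]
    congr 1
    change _ = a * (c⁻¹ • (ψ * ν))
    rw [(cψ p).eq, smul_mul_assoc, mul_smul_comm, mul_smul_comm]
    have s2 : ψ * (φ * (a * ν) * ψ) = (ψ * φ) * (a * (ν * ψ)) := by noncomm_ring
    rw [s2, h2, ← Algebra.smul_def, smul_smul c⁻¹ c, inv_mul_cancel₀ hc, one_smul]
  have e5 : ∀ a : A, Commute (L t ht η) (L t ht a) := fun a => ext_q t fun b => by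
    have h0 := congrArg (L t ht a) (e4 b)
    simp only [L_mk] at h0
    rw [Module.End.mul_apply, Module.End.mul_apply, L_mk, L_mk, L_mk, L_mk, e4, h0, mul_assoc]
  have e6 : IsNilpotent (L t ht η) := by
    change IsNilpotent (L t ht (c⁻¹ • (ψ * ν)))
    rw [L_smul, L_mul]
    have cc : Commute (L t ht ψ) (L t ht ν) := by
      change L t ht ψ * L t ht ν = L t ht ν * L t ht ψ
      rw [← L_mul, ← L_mul, (cψ p).eq]
    have : IsNilpotent (L t ht ψ * L t ht ν) := cc.isNilpotent_mul_left (by rw [hp]; exact hnn)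
    exact this.smul c⁻¹
  have e7 : η ∈ rad t := by
    intro b
    apply hnil
    obtain ⟨k, hk⟩ := (e5 b).isNilpotent_mul_right e6
    refine ⟨k, ?_⟩
    rw [← L_zero_iff t ht, L_pow, L_mul]
    exact hk
  have e8 : ν ∈ rad t := by
    have := rad_left t ht e7 φ
    have e9 : φ * η = ν := by
      change φ * (c⁻¹ • (ψ * ν)) = ν
      rw [mul_smul_comm, ← mul_assoc, h1, ← Algebra.smul_def, smul_smul, inv_mul_cancel₀ hc, one_smul]
    rwa [e9] at this
  have e10 : (L t ht φ).IsSemisimple := by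
    rw [heq, ← hp, (L_zero_iff t ht ν).2 e8, zero_add]
    exact hss
  refine ⟨minpoly ℚ (L t ht φ), e10.minpoly_squarefree, ?_⟩
  rw [← L_zero_iff t ht, L_aeval, minpoly.aeval]

end Pool.Agent.L7h85.SE
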