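import Mathlib

/-!
# Operators with bounded orbits

An invertible operator of a finite-dimensional rational vector space, such that all matrix coefficients of
its powers (positive and negative) are bounded, has no nilpotent part.
-/

set_option autoImplicit false

open Polynomial

namespace Pool.Agent.L7h85.SE

section complex

variable {ι : Type*} [Fintype ι]

/-- complex operators with bounded orbits (forwards and backwards) have no Jordan block of length two -/
theorem block (S S' : Module.End ℂ (ι → ℂ)) (h : S' * S = 1)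
    (hb : ∀ (w : ι → ℂ) (i : ι), ∃ C : ℝ, ∀ k : ℕ, ‖(S ^ k) w i‖ ≤ C)
    (hb' : ∀ (w : ι → ℂ) (i : ι), ∃ C : ℝ, ∀ k : ℕ, ‖(S' ^ k) w i‖ ≤ C)
    (μ : ℂ) (w w' : ι → ℂ) (h1 : S w = μ • w + w') (h2 : S w' = μ • w') : w' = 0 := by
  classical
  by_contra hne
  obtain ⟨i, hi⟩ : ∃ i, w' i ≠ 0 := by
    by_contra h0
    push Not at h0
    exact hne (funext h0)
  have hi' : 0 < ‖w' i‖ := norm_pos_iff.2 hi
  have e1 : ∀ k : ℕ, (S ^ k) w' = μ ^ k • w' := by
    intro k
    induction k with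
    | zero => simp
    | succ k ih => rw [pow_succ', Module.End.mul_apply, ih, map_smul, h2, smul_smul, pow_succ]
  have hS' : ∀ v, S' (S v) = v := fun v => by
    rw [← Module.End.mul_apply, h, Module.End.one_apply]
  have hμ0 : μ ≠ 0 := by
    rintro rfl
    rw [zero_smul] at h2
    have := hS' w'
    rw [h2, map_zero] at this
    exact hne this.symm
  have h3 : S' w' = μ⁻¹ • w' := by
    have := hS' w'
    rw [h2, map_smul] at this
    rw [← this, smul_smul, inv_mul_cancel₀ hμ0, one_smul, this]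
  have e2 : ∀ k : ℕ, (S' ^ k) w' = (μ⁻¹) ^ k • w' := by
    intro k
    induction k with
    | zero => simp
    | succ k ih => rw [pow_succ', Module.End.mul_apply, ih, map_smul, h3, smul_smul, pow_succ]
  have e3 : ∀ k : ℕ, (S ^ (k + 1)) w = μ ^ (k + 1) • w + ((k : ℂ) + 1) • μ ^ k • w' := by
    intro k
    induction k with
    | zero => simp [h1]
    | succ k ih =>
      rw [pow_succ', Module.End.mul_apply, ih, map_add, map_smul, map_smul, map_smul, h1, h2]
      ext j
      simp only [Pi.add_apply, Pi.smul_apply, smul_eq_mul]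
      push_cast
      ring
  have key : ∀ ν : ℂ, (∃ C : ℝ, ∀ k : ℕ, ‖ν ^ k * w' i‖ ≤ C) → ‖ν‖ ≤ 1 := by
    rintro ν ⟨C, hC⟩
    by_contra hν
    push Not at hν
    obtain ⟨k, hk⟩ := pow_unbounded_of_one_lt (C / ‖w' i‖) hν
    have := hC k
    rw [norm_mul, norm_pow] at this
    rw [div_lt_iff₀ hi'] at hk
    linarith
  have hle : ‖μ‖ ≤ 1 := by
    apply key
    obtain ⟨C, hC⟩ := hb w' i
    refine ⟨C, fun k => ?_⟩
    have := hC k
    rw [e1 k] at this
    exact this
  have hge : 1 ≤ ‖μ‖ := by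
    have : ‖μ⁻¹‖ ≤ 1 := by
      apply key
      obtain ⟨C, hC⟩ := hb' w' i
      refine ⟨C, fun k => ?_⟩
      have := hC k
      rw [e2 k] at this
      exact this
    rw [norm_inv] at this
    exact (inv_le_one_iff₀.1 this).resolve_left (by
      have := norm_pos_iff.2 hμ0
      linarith)
  have heq : ‖μ‖ = 1 := le_antisymm hle hge
  obtain ⟨C, hC⟩ := hb w i
  obtain ⟨k, hk⟩ := exists_nat_gt ((C + ‖w i‖) / ‖w' i‖)
  rw [div_lt_iff₀ hi'] at hk
  have h5 := hC (k + 1)
  rw [e3 k] at h5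
  simp only [Pi.add_apply, Pi.smul_apply, smul_eq_mul] at h5
  have h6 : ‖((k : ℂ) + 1) * (μ ^ k * w' i)‖ = ((k : ℝ) + 1) * ‖w' i‖ := by
    rw [norm_mul, norm_mul, norm_pow, heq, one_pow, one_mul]
    congr 1
    have : ((k : ℂ) + 1) = ((k + 1 : ℕ) : ℂ) := by push_cast; ring
    rw [this, Complex.norm_natCast]
    push_cast
    ring
  have h7 : ‖μ ^ (k + 1) * w i‖ = ‖w i‖ := by
    rw [norm_mul, norm_pow, heq, one_pow, one_mul]
  have h8 : ‖((k : ℂ) + 1) * (μ ^ k * w' i)‖ ≤
      ‖μ ^ (k + 1) * w i + ((k : ℂ) + 1) * (μ ^ k * w' i)‖ + ‖μ ^ (k + 1) * w i‖ := by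
    have := norm_sub_le (μ ^ (k + 1) * w i + ((k : ℂ) + 1) * (μ ^ k * w' i)) (μ ^ (k + 1) * w i)
    simpa using this
  rw [h6, h7] at h8
  nlinarith

/-- so the generalized eigenspaces are the eigenspaces -/
theorem gen (S S' : Module.End ℂ (ι → ℂ)) (h : S' * S = 1)
    (hb : ∀ (w : ι → ℂ) (i : ι), ∃ C : ℝ, ∀ k : ℕ, ‖(S ^ k) w i‖ ≤ C)
    (hb' : ∀ (w : ι → ℂ) (i : ι), ∃ C : ℝ, ∀ k : ℕ, ‖(S' ^ k) w i‖ ≤ C)
    (μ : ℂ) (k : ℕ) (w : ι → ℂ) (hw : ((S - algebraMap ℂ (Module.End ℂ (ι → ℂ)) μ) ^ k) w = 0) : S w = μ • w := by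
  have e : ∀ v, (S - algebraMap ℂ (Module.End ℂ (ι → ℂ)) μ) v = S v - μ • v := fun v => by
    rw [LinearMap.sub_apply, Module.algebraMap_end_apply]
  have step : ∀ v : ι → ℂ, ((S - algebraMap ℂ (Module.End ℂ (ι → ℂ)) μ) ^ 2) v = 0 → (S - algebraMap ℂ (Module.End ℂ (ι → ℂ)) μ) v = 0 := by
    intro v hv
    refine block S S' h hb hb' μ v _ ?_ ?_
    · rw [e]
      abel
    · rw [pow_two, Module.End.mul_apply, e ((S - algebraMap ℂ (Module.End ℂ (ι → ℂ)) μ) v), sub_eq_zero] at hv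
      exact hv
  have main : ∀ k : ℕ, ((S - algebraMap ℂ (Module.End ℂ (ι → ℂ)) μ) ^ (k + 1)) w = 0 →
      (S - algebraMap ℂ (Module.End ℂ (ι → ℂ)) μ) w = 0 := by
    intro k
    induction k with
    | zero => intro h0; simpa using h0
    | succ k ih =>
      intro h0
      apply ih
      rw [pow_succ', Module.End.mul_apply]
      apply step
      rw [← Module.End.mul_apply, ← pow_add, show 2 + k = k + 1 + 1 by ring]
      exact h0
  have h9 : (S - algebraMap ℂ (Module.End ℂ (ι → ℂ)) μ) w = 0 := by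
    apply main k
    rw [pow_succ', Module.End.mul_apply, hw, map_zero]
  rw [e, sub_eq_zero] at h9
  exact h9

/-- nilpotent polynomials of such an operator are zero -/
theorem nilC (S S' : Module.End ℂ (ι → ℂ)) (h : S' * S = 1)
    (hb : ∀ (w : ι → ℂ) (i : ι), ∃ C : ℝ, ∀ k : ℕ, ‖(S ^ k) w i‖ ≤ C)
    (hb' : ∀ (w : ι → ℂ) (i : ι), ∃ C : ℝ, ∀ k : ℕ, ‖(S' ^ k) w i‖ ≤ C)
    (p : ℂ[X]) (hp : IsNilpotent (aeval S p)) : aeval S p = 0 := by
  obtain ⟨m, hm⟩ := hp
  have h1 : ∀ μ : ℂ, S.maxGenEigenspace μ ≤ LinearMap.ker (aeval S p) := by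
    intro μ w hw
    rw [Module.End.mem_maxGenEigenspace] at hw
    obtain ⟨k, hk⟩ := hw
    have h2 : S w = μ • w := gen S S' h hb hb' μ k w (by
      rw [← Algebra.algebraMap_eq_smul_one] at hk
      exact hk)
    have h3 : ∀ q : ℂ[X], aeval S q w = q.eval μ • w := by
      intro q
      induction q using Polynomial.induction_on' with
      | add a b ha hb => rw [map_add, LinearMap.add_apply, ha, hb, eval_add, add_smul]
      | monomial n a =>
        have : ∀ n : ℕ, (S ^ n) w = μ ^ n • w := by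
          intro n
          induction n with
          | zero => simp
          | succ n ih => rw [pow_succ', Module.End.mul_apply, ih, map_smul, h2, smul_smul, pow_succ]
        rw [aeval_monomial, Module.End.mul_apply, this, Module.algebraMap_end_apply, eval_monomial,
          smul_smul]
    rw [LinearMap.mem_ker]
    have h4 : (aeval S (p ^ m)) w = 0 := by rw [map_pow, hm, LinearMap.zero_apply]
    rw [h3, eval_pow, smul_eq_zero] at h4
    rw [h3]
    rcases h4 with h4 | h4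
    · rw [eq_zero_of_pow_eq_zero h4, zero_smul]
    · rw [h4, smul_zero]
  have h2 : (⊤ : Submodule ℂ (ι → ℂ)) ≤ LinearMap.ker (aeval S p) := by
    rw [← Module.End.iSup_maxGenEigenspace_eq_top S]
    exact iSup_le h1
  exact LinearMap.ker_eq_top.1 (top_le_iff.1 h2)

end complex

section rational

variable {D : Type*} [AddCommGroup D] [Module ℚ D] [FiniteDimensional ℚ D]

/-- nilpotent polynomials of an invertible rational operator with bounded orbits are zero -/
theorem nilQ (T T' : Module.End ℚ D) (h : T' * T = 1)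
    (hb : ∀ (x : D) (l : Module.Dual ℚ D), ∃ C : ℚ, ∀ k : ℕ, |l ((T ^ k) x)| ≤ C)
    (hb' : ∀ (x : D) (l : Module.Dual ℚ D), ∃ C : ℚ, ∀ k : ℕ, |l ((T' ^ k) x)| ≤ C)
    (p : ℚ[X]) (hp : IsNilpotent (aeval T p)) : aeval T p = 0 := by
  classical
  let b := Module.finBasis ℚ D
  let Θ : Module.End ℚ D →+* Module.End ℂ (Fin (Module.finrank ℚ D) → ℂ) :=
    ((Matrix.toLinAlgEquiv' (R := ℂ) (n := Fin (Module.finrank ℚ D))).toAlgHom.toRingHom).comp
      (((algebraMap ℚ ℂ).mapMatrix).comp (LinearMap.toMatrixAlgEquiv b).toAlgHom.toRingHom)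
  have hΘ : Function.Injective Θ := by
    intro x y hxy
    have h1 : (algebraMap ℚ ℂ).mapMatrix (LinearMap.toMatrixAlgEquiv b x) =
        (algebraMap ℚ ℂ).mapMatrix (LinearMap.toMatrixAlgEquiv b y) :=
      (Matrix.toLinAlgEquiv' (R := ℂ) (n := Fin (Module.finrank ℚ D))).injective hxy
    have h2 : LinearMap.toMatrixAlgEquiv b x = LinearMap.toMatrixAlgEquiv b y := by
      ext i j
      have := congrFun (congrFun h1 i) j
      simp only [RingHom.mapMatrix_apply, Matrix.map_apply] at this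
      exact (algebraMap ℚ ℂ).injective this
    exact (LinearMap.toMatrixAlgEquiv b).injective h2
  have hap : ∀ (S : Module.End ℚ D) (w : Fin (Module.finrank ℚ D) → ℂ) (i),
      Θ S w i = ∑ j, ((b.repr (S (b j)) i : ℚ) : ℂ) * w j := by
    intro S w i
    change (Matrix.toLin' ((algebraMap ℚ ℂ).mapMatrix (LinearMap.toMatrix b b S))) w i = _
    rw [Matrix.toLin'_apply, Matrix.mulVec, dotProduct]
    refine Finset.sum_congr rfl fun j _ => ?_
    rw [RingHom.mapMatrix_apply, Matrix.map_apply, LinearMap.toMatrix_apply]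
    rfl
  have hbd : ∀ S : Module.End ℚ D,
      (∀ (x : D) (l : Module.Dual ℚ D), ∃ C : ℚ, ∀ k : ℕ, |l ((S ^ k) x)| ≤ C) →
      ∀ (w : Fin (Module.finrank ℚ D) → ℂ) (i), ∃ C : ℝ, ∀ k : ℕ, ‖((Θ S) ^ k) w i‖ ≤ C := by
    intro S hS w i
    choose C hC using fun j => hS (b j) (b.coord i)
    refine ⟨∑ j, (C j : ℝ) * ‖w j‖, fun k => ?_⟩
    rw [← map_pow, hap]
    refine (norm_sum_le _ _).trans (Finset.sum_le_sum fun j _ => ?_)
    rw [norm_mul]
    refine mul_le_mul_of_nonneg_right ?_ (norm_nonneg _)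
    have h1 := hC j k
    rw [Module.Basis.coord_apply] at h1
    have h2 : ‖((b.repr ((S ^ k) (b j)) i : ℚ) : ℂ)‖ = |((b.repr ((S ^ k) (b j)) i : ℚ) : ℝ)| := by
      rw [← Complex.ofReal_ratCast, Complex.norm_real, Real.norm_eq_abs]
    rw [h2]
    exact_mod_cast h1
  have hpoly : Θ (aeval T p) = aeval (Θ T) (p.map (algebraMap ℚ ℂ)) := by
    rw [aeval_def, aeval_def, eval₂_map, hom_eval₂]
    congr 1
    exact RingHom.ext_rat _ _
  apply hΘ
  rw [map_zero, hpoly]
  apply nilC (Θ T) (Θ T') (by rw [← map_mul, h, map_one]) (hbd T hb) (hbd T' hb')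
  rw [← hpoly]
  exact hp.map Θ

end rational

end Pool.Agent.L7h85.SE
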